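import Mathlib

/-!
# MP_bde658_co : word-representability of the circulant graphs `C_{2n}(x,1,n)`

We prove that `C_{2n}(x,1,n)` is word-representable for all integers `1 < x < n`.
-/

namespace Pool.Agent.Results.MP_bde658_co.AllRepresentable

open Relation

/-- The letters `a` and `b` alternate in the word `w`: after deleting all other letters no two
consecutive letters are equal. -/
def Alternate {V : Type*} [DecidableEq V] (w : List V) (a b : V) : Prop :=
  (w.filter (fun c => c = a ∨ c = b)).IsChain (· ≠ ·)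

/-- A graph `G` on `V` is word-representable: there is a finite word over the alphabet `V`, in
which every vertex occurs, such that distinct letters alternate iff they are adjacent. -/
def WordRepresentable {V : Type*} [DecidableEq V] (G : SimpleGraph V) : Prop :=
  ∃ w : List V, (∀ v : V, v ∈ w) ∧ ∀ a b : V, a ≠ b → (Alternate w a b ↔ G.Adj a b)

/-- The circulant graph `C_{2n}(x,1,n)` on `ZMod (2n)`: distinct `i`, `j` are adjacent iff
`i - j` or `j - i` is one of `x`, `1`, `n`. -/
def circ (n x : ℕ) : SimpleGraph (ZMod (2 * n)) :=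
  SimpleGraph.circulantGraph ({(x : ZMod (2 * n)), 1, (n : ZMod (2 * n))} : Set (ZMod (2 * n)))

section general

variable {V : Type*} [DecidableEq V]

/-- The classes of the vertices relative to a fixed vertex `i`. -/
inductive Cls | A | I | T | S | O | B
  deriving DecidableEq

open Classical in
/-- The class of `v` relative to `i`. -/
noncomputable def cls (Arc : V → V → Prop) (i v : V) : Cls :=
  if v = i then .S
  else if Arc v i then .I
  else if TransGen Arc v i then .A
  else if Arc i v then .O
  else if TransGen Arc i v then .B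
  else .T

/-- The order of the blocks. -/
def blocks : List Cls := [.A, .I, .T, .A, .S, .O, .I, .S, .B, .T, .O, .B]

/-- The word attached to a vertex `i`. -/
noncomputable def W (Arc : V → V → Prop) (L : List V) (i : V) : List V :=
  blocks.flatMap (fun X => L.filter (fun v => decide (cls Arc i v = X)))

theorem cls_spec (Arc : V → V → Prop) (i v : V) :
    (cls Arc i v = .S ∧ v = i) ∨
    (cls Arc i v = .I ∧ v ≠ i ∧ Arc v i) ∨
    (cls Arc i v = .A ∧ v ≠ i ∧ ¬ Arc v i ∧ TransGen Arc v i) ∨
    (cls Arc i v = .O ∧ v ≠ i ∧ ¬ Arc v i ∧ ¬ TransGen Arc v i ∧ Arc i v) ∨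
    (cls Arc i v = .B ∧ v ≠ i ∧ ¬ Arc v i ∧ ¬ TransGen Arc v i ∧ ¬ Arc i v ∧ TransGen Arc i v) ∨
    (cls Arc i v = .T ∧ v ≠ i ∧ ¬ Arc v i ∧ ¬ TransGen Arc v i ∧ ¬ Arc i v ∧
      ¬ TransGen Arc i v) := by
  unfold cls
  split_ifs <;> simp_all

theorem filter_W (Arc : V → V → Prop) (L : List V) (i u v : V) :
    (W Arc L i).filter (fun c => c = u ∨ c = v) =
      blocks.flatMap (fun X => (L.filter (fun c => c = u ∨ c = v)).filter
        (fun c => decide (cls Arc i c = X))) := by
  unfold W
  rw [List.filter_flatMap]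
  congr 1
  funext X
  rw [List.filter_filter, List.filter_filter]
  congr 1
  funext c
  exact Bool.and_comm _ _

omit [DecidableEq V] in
theorem exists_list [Fintype V] (key : V → ℕ) :
    ∃ L : List V, L.Nodup ∧ (∀ v, v ∈ L) ∧ L.Pairwise (fun a b => key a ≤ key b) := by
  refine ⟨(Finset.univ : Finset V).toList.mergeSort (fun a b => decide (key a ≤ key b)), ?_, ?_, ?_⟩
  · exact (List.mergeSort_perm _ _).nodup_iff.mpr (Finset.nodup_toList _)
  · intro v
    exact (List.mergeSort_perm _ _).mem_iff.mpr (by simp)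
  · have := List.pairwise_mergeSort (le := fun a b : V => decide (key a ≤ key b))
      (fun a b c h1 h2 => by
        simp only [decide_eq_true_eq] at *
        omega)
      (fun a b => by
        simp only [Bool.or_eq_true, decide_eq_true_eq]
        omega) ((Finset.univ : Finset V).toList)
    simpa using this

theorem filter_pair (L : List V) (hn : L.Nodup) (hm : ∀ v, v ∈ L) (u v : V) (huv : u ≠ v) :
    L.filter (fun c => c = u ∨ c = v) = [u, v] ∨ L.filter (fun c => c = u ∨ c = v) = [v, u] := by
  have hp : (L.filter (fun c => c = u ∨ c = v)).Perm [u, v] := by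
    refine (List.perm_ext_iff_of_nodup (hn.filter _) (by simp [huv])).mpr ?_
    intro a
    simp [hm]
  have hlen := hp.length_eq
  simp only [List.length_cons, List.length_nil] at hlen
  obtain ⟨a, b, hab⟩ := List.length_eq_two.mp hlen
  rw [hab] at hp ⊢
  have ha : a ∈ [u, v] := hp.mem_iff.mp (by simp)
  have hb : b ∈ [u, v] := hp.mem_iff.mp (by simp)
  have hne : a ≠ b := by
    have := hp.nodup_iff.mpr (by simp [huv])
    simpa using this
  simp only [List.mem_cons, List.not_mem_nil, or_false] at ha hb
  rcases ha with rfl | rfl <;> rcases hb with rfl | rfl <;> simp_all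

theorem filter_arc (L : List V) (hn : L.Nodup) (hm : ∀ v, v ∈ L) (key : V → ℕ)
    (hs : L.Pairwise (fun a b => key a ≤ key b)) (u v : V) (h : key u < key v) :
    L.filter (fun c => c = u ∨ c = v) = [u, v] := by
  have huv : u ≠ v := by
    rintro rfl
    exact lt_irrefl _ h
  rcases filter_pair L hn hm u v huv with h1 | h1
  · exact h1
  · exfalso
    have h2 : (L.filter (fun c => c = u ∨ c = v)).Pairwise (fun a b => key a ≤ key b) :=
      hs.filter _
    rw [h1] at h2
    simp at h2
    omega

omit [DecidableEq V] in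
theorem chain_flatMap {α : Type*} (u v : V) (huv : u ≠ v) (M : List α) :
    (M.flatMap (fun _ => [u, v, u, v])).IsChain (· ≠ ·) := by
  induction M with
  | nil => simp
  | cons a M ih =>
    rw [List.flatMap_cons]
    cases M with
    | nil => simp [huv, huv.symm]
    | cons b M =>
      rw [List.flatMap_cons] at ih ⊢
      simp only [List.cons_append, List.nil_append] at ih ⊢
      simp only [List.isChain_cons_cons, ne_eq] at ih ⊢
      tauto

theorem eval_arc (Arc : V → V → Prop) (key : V → ℕ)
    (hkey : ∀ u v, Arc u v → key u < key v)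
    (hkeyT : ∀ u v, TransGen Arc u v → key u < key v)
    (hST : ∀ u v w, TransGen Arc u v → TransGen Arc v w → Arc u w → Arc u v ∧ Arc v w)
    (i u v : V) (huv : Arc u v) :
    blocks.flatMap (fun X => [u, v].filter (fun c => decide (cls Arc i c = X))) =
      [u, v, u, v] := by
  have hne : u ≠ v := by
    rintro rfl
    exact lt_irrefl _ (hkey _ _ huv)
  have f1 : TransGen Arc v i → TransGen Arc u i := fun h => TransGen.head huv h
  have f2 : TransGen Arc i u → TransGen Arc i v := fun h => h.tail huv
  have f3 : TransGen Arc u i → TransGen Arc i v → Arc u i ∧ Arc i v :=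
    fun h1 h2 => hST u i v h1 h2 huv
  have f4 : Arc u i → TransGen Arc v i → Arc v i :=
    fun h1 h2 => (hST u v i (.single huv) h2 h1).2
  have f5 : Arc i v → TransGen Arc i u → Arc i u :=
    fun h1 h2 => (hST i u v h2 (.single huv) h1).1
  have g1 : Arc u i → TransGen Arc u i := fun h => .single h
  have g2 : Arc v i → TransGen Arc v i := fun h => .single h
  have g3 : Arc i u → TransGen Arc i u := fun h => .single h
  have g4 : Arc i v → TransGen Arc i v := fun h => .single h
  have c1 : TransGen Arc i u → ¬ TransGen Arc u i :=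
    fun h1 h2 => lt_irrefl _ (lt_trans (hkeyT _ _ h1) (hkeyT _ _ h2))
  have c2 : TransGen Arc i v → ¬ TransGen Arc v i :=
    fun h1 h2 => lt_irrefl _ (lt_trans (hkeyT _ _ h1) (hkeyT _ _ h2))
  have e1 : u = i → Arc i v := fun h => h ▸ huv
  have e2 : v = i → Arc u i := fun h => h ▸ huv
  have e3 : u = i → v ≠ i := fun h1 h2 => hne (h1.trans h2.symm)
  clear hkey hkeyT hST hne
  rcases cls_spec Arc i u with ⟨hu1, hu2⟩ | ⟨hu1, hu2, hu3⟩ | ⟨hu1, hu2, hu3, hu4⟩ |
    ⟨hu1, hu2, hu3, hu4, hu5⟩ | ⟨hu1, hu2, hu3, hu4, hu5, hu6⟩ |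
    ⟨hu1, hu2, hu3, hu4, hu5, hu6⟩ <;>
  rcases cls_spec Arc i v with ⟨hv1, hv2⟩ | ⟨hv1, hv2, hv3⟩ | ⟨hv1, hv2, hv3, hv4⟩ |
    ⟨hv1, hv2, hv3, hv4, hv5⟩ | ⟨hv1, hv2, hv3, hv4, hv5, hv6⟩ |
    ⟨hv1, hv2, hv3, hv4, hv5, hv6⟩ <;>
  first
    | exact absurd ‹v = i› (e3 ‹u = i›)
    | exact absurd (g2 ‹Arc v i›) (c2 (g4 (e1 ‹u = i›)))
    | exact absurd ‹TransGen Arc v i› (c2 (g4 (e1 ‹u = i›)))
    | exact absurd (e1 ‹u = i›) ‹¬ Arc i v›
    | exact absurd (f4 ‹Arc u i› ‹TransGen Arc v i›) ‹¬ Arc v i›
    | exact absurd (f3 (g1 ‹Arc u i›) ‹TransGen Arc i v›).2 ‹¬ Arc i v›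
    | exact absurd (e2 ‹v = i›) ‹¬ Arc u i›
    | exact absurd (f3 ‹TransGen Arc u i› (g4 ‹Arc i v›)).1 ‹¬ Arc u i›
    | exact absurd (f3 ‹TransGen Arc u i› ‹TransGen Arc i v›).1 ‹¬ Arc u i›
    | exact absurd (f1 (g2 ‹Arc v i›)) ‹¬ TransGen Arc u i›
    | exact absurd (f1 ‹TransGen Arc v i›) ‹¬ TransGen Arc u i›
    | exact absurd (f2 (g3 ‹Arc i u›)) ‹¬ TransGen Arc i v›
    | exact absurd (f2 ‹TransGen Arc i u›) ‹¬ TransGen Arc i v›
    | exact absurd (f5 ‹Arc i v› ‹TransGen Arc i u›) ‹¬ Arc i u›
    | (simp only [blocks, List.flatMap_cons, List.flatMap_nil, List.filter_cons, hu1, hv1]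
       simp)

/-- A graph with an acyclic orientation without shortcuts is word-representable
(Halldórsson, Kitaev, Pyatkin). -/
theorem wordRepresentable_of_orientation [Fintype V] (G : SimpleGraph V) (Arc : V → V → Prop)
    (key : V → ℕ)
    (hkey : ∀ u v, Arc u v → key u < key v)
    (hG : ∀ u v, G.Adj u v ↔ Arc u v ∨ Arc v u)
    (hST : ∀ u v w, TransGen Arc u v → TransGen Arc v w → Arc u w → Arc u v ∧ Arc v w) :
    WordRepresentable G := by
  obtain ⟨L, hn, hm, hs⟩ := exists_list key
  have hkeyT : ∀ u v, TransGen Arc u v → key u < key v := by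
    intro u v h
    induction h with
    | single h => exact hkey _ _ h
    | tail _ h ih => exact lt_trans ih (hkey _ _ h)
  refine ⟨L.flatMap (W Arc L), ?_, ?_⟩
  · intro v
    rw [List.mem_flatMap]
    refine ⟨v, hm v, ?_⟩
    unfold W blocks
    simp [cls, hm]
  · intro a b hab
    -- arcs alternate
    have harc : ∀ u v, Arc u v →
        (L.flatMap (W Arc L)).filter (fun c => c = u ∨ c = v) =
          L.flatMap (fun _ => [u, v, u, v]) := by
      intro u v huv
      rw [List.filter_flatMap]
      congr 1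
      funext i
      rw [filter_W, filter_arc L hn hm key hs u v (hkey u v huv)]
      exact eval_arc Arc key hkey hkeyT hST i u v huv
    -- non-arcs do not alternate
    have hnon : ¬ G.Adj a b → ¬ Alternate (L.flatMap (W Arc L)) a b := by
      intro hadj halt
      have hab1 : ¬ Arc a b := fun h => hadj ((hG a b).mpr (Or.inl h))
      have hab2 : ¬ Arc b a := fun h => hadj ((hG a b).mpr (Or.inr h))
      obtain ⟨s, t, hst⟩ := List.append_of_mem (hm a)
      have hsplit : (L.flatMap (W Arc L)).filter (fun c => c = a ∨ c = b) =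
          (s.flatMap (W Arc L)).filter (fun c => c = a ∨ c = b) ++
          ((W Arc L a).filter (fun c => c = a ∨ c = b) ++
            (t.flatMap (W Arc L)).filter (fun c => c = a ∨ c = b)) := by
        have : L.flatMap (W Arc L) = (s ++ a :: t).flatMap (W Arc L) := by rw [← hst]
        rw [this, List.flatMap_append, List.flatMap_cons, List.filter_append, List.filter_append]
      unfold Alternate at halt
      rw [hsplit] at halt
      have hmid := halt.right_of_append.left_of_append
      rw [filter_W] at hmid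
      have hcls : cls Arc a a = .S := by simp [cls]
      rcases filter_pair L hn hm a b hab with hL | hL <;> rw [hL] at hmid <;>
      rcases cls_spec Arc a b with ⟨hu1, hu2⟩ | ⟨hu1, hu2, hu3⟩ | ⟨hu1, hu2, hu3, hu4⟩ |
        ⟨hu1, hu2, hu3, hu4, hu5⟩ | ⟨hu1, hu2, hu3, hu4, hu5, hu6⟩ |
        ⟨hu1, hu2, hu3, hu4, hu5, hu6⟩ <;>
      first
        | exact absurd ‹b = a› hab.symm
        | exact absurd ‹Arc b a› hab2
        | exact absurd ‹Arc a b› hab1
        | (simp only [blocks, List.flatMap_cons, List.flatMap_nil, List.filter_cons, hu1, hcls]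
            at hmid
           simp at hmid)
    constructor
    · intro h
      by_contra hcon
      exact hnon hcon h
    · intro h
      rcases (hG a b).mp h with h | h
      · unfold Alternate
        rw [harc a b h]
        exact chain_flatMap a b hab L
      · unfold Alternate
        have : (L.flatMap (W Arc L)).filter (fun c => c = a ∨ c = b) =
            (L.flatMap (W Arc L)).filter (fun c => c = b ∨ c = a) := by
          congr 1
          funext c
          simp only [decide_eq_decide]
          exact Or.comm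
        rw [this, harc b a h]
        exact chain_flatMap b a hab.symm L

end general

section criteria

variable {V : Type*} [DecidableEq V] [Fintype V]

/-- Graphs with a map to a circle of circumference `2n` such that adjacent vertices are at
distance more than `n/2` are word-representable. -/
theorem wr_of_circular (G : SimpleGraph V) (φ : V → ℕ) (n : ℕ)
    (h : ∀ u v, G.Adj u v → (2 * φ u + n < 2 * φ v ∧ 2 * φ v < 2 * φ u + 3 * n) ∨
        (2 * φ v + n < 2 * φ u ∧ 2 * φ u < 2 * φ v + 3 * n)) :
    WordRepresentable G := by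
  have hp : ∀ u v, TransGen (fun u v => G.Adj u v ∧ φ u < φ v) u v →
      2 * φ u + n < 2 * φ v ∧ ((G.Adj u v ∧ φ u < φ v) ∨ φ u + n < φ v) := by
    intro u v huv
    induction huv with
    | single h1 =>
      obtain ⟨h1, h2⟩ := h1
      rcases h _ _ h1 with h3 | h3
      · exact ⟨by omega, Or.inl ⟨h1, h2⟩⟩
      · omega
    | tail _ h1 ih =>
      obtain ⟨h1, h2⟩ := h1
      obtain ⟨h4, _⟩ := ih
      rcases h _ _ h1 with h3 | h3
      · exact ⟨by omega, Or.inr (by omega)⟩
      · omega
  refine wordRepresentable_of_orientation G (fun u v => G.Adj u v ∧ φ u < φ v) φ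
    (fun u v h => h.2) ?_ ?_
  · intro u v
    constructor
    · intro hadj
      rcases h u v hadj with h1 | h1
      · exact Or.inl ⟨hadj, by omega⟩
      · exact Or.inr ⟨hadj.symm, by omega⟩
    · rintro (h1 | h1)
      · exact h1.1
      · exact h1.1.symm
  · intro u v w h1 h2 h3
    obtain ⟨a1, a2⟩ := hp u v h1
    obtain ⟨b1, b2⟩ := hp v w h2
    obtain ⟨h3, h4⟩ := h3
    have h5 : 2 * φ w < 2 * φ u + 3 * n := by
      rcases h u w h3 with h6 | h6 <;> omega
    constructor
    · rcases a2 with a2 | a2
      · exact a2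
      · omega
    · rcases b2 with b2 | b2
      · exact b2
      · omega

/-- Graphs with a proper colouring by `0,1,2,3` in which every 4-cycle coloured `0,1,2,3` in
cyclic order is a clique are word-representable. -/
theorem wr_of_four (G : SimpleGraph V) (f : V → ℕ) (hf : ∀ v, f v < 4)
    (hp : ∀ u v, G.Adj u v → f u ≠ f v)
    (hc : ∀ a b c d, f a = 0 → f b = 1 → f c = 2 → f d = 3 → G.Adj a b → G.Adj b c →
      G.Adj c d → G.Adj a d → G.Adj a c ∧ G.Adj b d) :
    WordRepresentable G := by
  have hq : ∀ u v, TransGen (fun u v => G.Adj u v ∧ f u < f v) u v →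
      f u < f v ∧ ((G.Adj u v ∧ f u < f v) ∨
        (∃ s, (G.Adj u s ∧ f u < f s) ∧ (G.Adj s v ∧ f s < f v)) ∨ f u + 3 ≤ f v) := by
    intro u v huv
    induction huv with
    | single h1 => exact ⟨h1.2, Or.inl h1⟩
    | tail _ h1 ih =>
      obtain ⟨i1, i2⟩ := ih
      refine ⟨lt_trans i1 h1.2, ?_⟩
      rcases i2 with i2 | ⟨s, s1, s2⟩ | i2
      · exact Or.inr (Or.inl ⟨_, i2, h1⟩)
      · have := s1.2
        have := s2.2
        have := h1.2
        exact Or.inr (Or.inr (by omega))
      · have := h1.2
        exact Or.inr (Or.inr (by omega))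
  refine wordRepresentable_of_orientation G (fun u v => G.Adj u v ∧ f u < f v) f
    (fun u v h => h.2) ?_ ?_
  · intro u v
    constructor
    · intro hadj
      rcases lt_or_gt_of_ne (hp u v hadj) with h1 | h1
      · exact Or.inl ⟨hadj, h1⟩
      · exact Or.inr ⟨hadj.symm, h1⟩
    · rintro (h1 | h1)
      · exact h1.1
      · exact h1.1.symm
  · intro u v w h1 h2 h3
    obtain ⟨a1, a2⟩ := hq u v h1
    obtain ⟨b1, b2⟩ := hq v w h2
    have hw := hf w
    rcases a2 with a2 | ⟨s, s1, s2⟩ | a2
    · rcases b2 with b2 | ⟨t, t1, t2⟩ | b2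
      · exact ⟨a2, b2⟩
      · have e1 := t1.2
        have e2 := t2.2
        have := hc u v t w (by omega) (by omega) (by omega) (by omega) a2.1 t1.1 t2.1 h3.1
        exact ⟨a2, this.2, b1⟩
      · omega
    · have e1 := s1.2
      have e2 := s2.2
      have := hc u s v w (by omega) (by omega) (by omega) (by omega) s1.1 s2.1
        (by
          rcases b2 with b2 | ⟨t, t1, t2⟩ | b2
          · exact b2.1
          · have e3 := t1.2
            have e4 := t2.2
            omega
          · omega) h3.1
      refine ⟨⟨this.1, a1⟩, ?_⟩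
      rcases b2 with b2 | ⟨t, t1, t2⟩ | b2
      · exact b2
      · have e3 := t1.2
        have e4 := t2.2
        omega
      · omega
    · omega

/-- A cycle of length `n ≥ 4` with every vertex replaced by an edge is word-representable. -/
theorem wr_of_twin_cycle (G : SimpleGraph V) (n : ℕ) (hn : 4 ≤ n) (c e : V → ℕ)
    (hc : ∀ v, c v < n) (he : ∀ v, e v < 2)
    (hinj : ∀ u v, c u = c v → e u = e v → u = v)
    (hadj : ∀ u v, G.Adj u v ↔ u ≠ v ∧ (c u = c v ∨ c v = c u + 1 ∨ c u = c v + 1 ∨
      (c u = 0 ∧ c v = n - 1) ∨ (c v = 0 ∧ c u = n - 1))) :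
    WordRepresentable G := by
  classical
  obtain ⟨r, hr⟩ : ∃ r : ℕ → ℕ, ∀ a, a < n → (a = n - 1 ∧ r a = n - 2) ∨
      (a = n - 2 ∧ r a = n - 1) ∨ (a + 3 ≤ n ∧ r a = a) := by
    refine ⟨fun a => if a = n - 1 then n - 2 else if a = n - 2 then n - 1 else a, ?_⟩
    intro a ha
    by_cases h1 : a = n - 1
    · left; simp [h1]
    · by_cases h2 : a = n - 2
      · right; left
        refine ⟨h2, ?_⟩
        simp only [h2, if_true]
        rw [if_neg (by omega)]
      · right; right
        refine ⟨by omega, ?_⟩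
        simp [h1, h2]
  set key : V → ℕ := fun v => 2 * r (c v) + e v with hkey
  have hT : ∀ u v, TransGen (fun u v => G.Adj u v ∧ key u < key v) u v → key u < key v := by
    intro u v huv
    induction huv with
    | single h1 => exact h1.2
    | tail _ h1 ih => exact lt_trans ih h1.2
  have hone : ∀ u v, G.Adj u v → key u < key v → c v = n - 1 → c u = 0 ∨ c u = n - 1 := by
    intro u v h1 h2 h3
    have h4 := ((hadj u v).mp h1).2
    have h5 := hr _ (hc u)
    have h6 := hr _ (hc v)
    have h7 := he u
    have h8 := he v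
    have h9 := hc u
    simp only [hkey] at h2
    omega
  have hzero : ∀ u v, key u < key v → c v = 0 → c u = 0 := by
    intro u v h2 h3
    have h5 := hr _ (hc u)
    have h6 := hr _ (hc v)
    have h7 := he u
    have h8 := he v
    have h9 := hc u
    simp only [hkey] at h2
    omega
  have hR : ∀ u v, TransGen (fun u v => G.Adj u v ∧ key u < key v) u v → c v = n - 1 →
      c u = 0 ∨ c u = n - 1 := by
    intro u v huv
    induction huv using TransGen.head_induction_on with
    | single h1 =>
      intro hv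
      exact hone _ _ h1.1 h1.2 hv
    | head h1 _ ih =>
      intro hv
      rcases ih hv with h2 | h2
      · exact Or.inl (hzero _ _ h1.2 h2)
      · exact hone _ _ h1.1 h1.2 h2
  refine wordRepresentable_of_orientation G (fun u v => G.Adj u v ∧ key u < key v) key
    (fun u v h => h.2) ?_ ?_
  · intro u v
    constructor
    · intro h
      have hne : key u ≠ key v := by
        intro hk
        have h4 := ((hadj u v).mp h)
        have h5 := hr _ (hc u)
        have h6 := hr _ (hc v)
        have h7 := he u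
        have h8 := he v
        have h9 := hc u
        have h10 := hc v
        simp only [hkey] at hk
        exact h4.1 (hinj u v (by omega) (by omega))
      rcases lt_or_gt_of_ne hne with h1 | h1
      · exact Or.inl ⟨h, h1⟩
      · exact Or.inr ⟨h.symm, h1⟩
    · rintro (h1 | h1)
      · exact h1.1
      · exact h1.1.symm
  · intro u v w h1 h2 h3
    have k1 := hT u v h1
    have k2 := hT v w h2
    have n1 : u ≠ v := by
      rintro rfl
      exact lt_irrefl _ k1
    have n2 : v ≠ w := by
      rintro rfl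
      exact lt_irrefl _ k2
    have r1 := hR u v h1
    have r2 := hR v w h2
    have h4 := ((hadj u w).mp h3.1).2
    have hu := hr _ (hc u)
    have hv := hr _ (hc v)
    have hw := hr _ (hc w)
    have eu := he u
    have ev := he v
    have ew := he w
    have cu := hc u
    have cv := hc v
    have cw := hc w
    have k1' := k1
    have k2' := k2
    simp only [hkey] at k1' k2'
    have hcv : c v = c u ∨ c v = c w := by
      by_contra hcon
      push Not at hcon
      obtain ⟨q1, q2⟩ := hcon
      rcases hu with ⟨hu1, hu2⟩ | ⟨hu1, hu2⟩ | ⟨hu1, hu2⟩ <;>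
      rcases hv with ⟨hv1, hv2⟩ | ⟨hv1, hv2⟩ | ⟨hv1, hv2⟩ <;>
      rcases hw with ⟨hw1, hw2⟩ | ⟨hw1, hw2⟩ | ⟨hw1, hw2⟩ <;>
      omega
    rcases hcv with hcv | hcv
    · exact ⟨⟨(hadj u v).mpr ⟨n1, by omega⟩, k1⟩, ⟨(hadj v w).mpr ⟨n2, by omega⟩, k2⟩⟩
    · exact ⟨⟨(hadj u v).mpr ⟨n1, by omega⟩, k1⟩, ⟨(hadj v w).mpr ⟨n2, by omega⟩, k2⟩⟩

end criteria

section existence

/-- odd `n`: a good multiple -/
theorem exists_k (n y : ℕ) (hn : n % 2 = 1) (hy : 2 ≤ y) (hyn : 2 * y < n) :
    ∃ k, n < 4 * (y * k) ∧ 4 * (y * k) < 3 * n ∧ 4 * k < n := by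
  by_cases h : n < 4 * y
  · exact ⟨1, by omega, by omega, by omega⟩
  · have h1 : 4 * y < n := by omega
    have h2 : n < 4 * y * (n / (4 * y) + 1) := Nat.lt_mul_div_succ n (by omega)
    have h3 : 4 * y * (n / (4 * y)) ≤ n := Nat.mul_div_le n (4 * y)
    set q := n / (4 * y) with hq
    refine ⟨q + 1, ?_, ?_, ?_⟩
    · nlinarith
    · nlinarith
    · nlinarith

/-- even `n`: a good odd multiple -/
theorem exists_j (n y : ℕ) (hy : 2 ≤ y) (hyn : 2 * y < n) (h : 3 ≤ y ∨ 8 ≤ n)
    (hn : n % 2 = 0) :
    ∃ j, n < 2 * (y * (2 * j + 1)) ∧ 2 * (y * (2 * j + 1)) < 3 * n ∧ 2 * (2 * j + 1) < n := by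
  have h2 : n + 2 * y < 4 * y * ((n + 2 * y) / (4 * y) + 1) := Nat.lt_mul_div_succ _ (by omega)
  have h3 : 4 * y * ((n + 2 * y) / (4 * y)) ≤ n + 2 * y := Nat.mul_div_le _ (4 * y)
  set q := (n + 2 * y) / (4 * y) with hq
  refine ⟨q, ?_, ?_, ?_⟩
  · nlinarith
  · nlinarith
  · rcases Nat.lt_or_ge 2 y with h4 | h4
    · have h5 : 12 * q ≤ n + 6 := by
        rcases Nat.eq_zero_or_pos q with h0 | h0
        · omega
        · have : y * (4 * q - 2) ≤ n := by
            have : y * (4 * q - 2) = 4 * y * q - 2 * y := by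
              rw [Nat.mul_sub]
              congr 1 <;> ring
            omega
          have : 3 * (4 * q - 2) ≤ y * (4 * q - 2) := Nat.mul_le_mul_right _ h4
          omega
      omega
    · have h5 : y = 2 := by omega
      subst h5
      omega

/-- The main existence lemma. -/
theorem exists_Q (n x : ℕ) (hx : 1 < x) (hxn : x + 2 ≤ n) (h2 : 2 * x ≠ n)
    (h62 : ¬ (n = 6 ∧ x = 2)) :
    ∃ Q : ℕ, Q % 2 = 1 ∧ n < 2 * Q ∧ 2 * Q < 3 * n ∧
      ∃ K r : ℕ, x * Q = 2 * n * K + r ∧ n < 2 * r ∧ 2 * r < 3 * n := by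
  rcases Nat.even_or_odd n with ⟨n', hn⟩ | ⟨n', hn⟩
  · rcases Nat.even_or_odd x with ⟨x', hx'⟩ | ⟨x', hx'⟩
    · -- both even
      by_cases hlt : 2 * x < n
      · obtain ⟨j, j1, j2, j3⟩ := exists_j n x (by omega) hlt (by omega) (by omega)
        refine ⟨n + (2 * j + 1), by omega, by omega, by omega, x', x * (2 * j + 1), ?_, j1, j2⟩
        rw [hn, hx']
        ring
      · refine ⟨n + 1, by omega, by omega, by omega, x', x, ?_, by omega, by omega⟩
        rw [hn, hx']
        ring
    · -- n even, x odd
      by_cases hlt : 2 * x < n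
      · refine ⟨n + 1, by omega, by omega, by omega, x', n + x, ?_, by omega, by omega⟩
        rw [hx']
        ring
      · obtain ⟨y, hy⟩ : ∃ y, n = x + y := ⟨n - x, by omega⟩
        obtain ⟨j, j1, j2, j3⟩ := exists_j n y (by omega) (by omega) (by omega) (by omega)
        obtain ⟨y', hy'⟩ : ∃ y', y = 2 * y' + 1 := ⟨y / 2, by omega⟩
        obtain ⟨K, hK⟩ : ∃ K, K + y' + 1 = n' + j := ⟨n' + j - y' - 1, by omega⟩
        refine ⟨n + (2 * j + 1), by omega, by omega, by omega, K,
          2 * n - y * (2 * j + 1), ?_, by omega, by omega⟩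
        have h5 : y * (2 * j + 1) ≤ 2 * n := by omega
        zify [h5]
        have hx2 : (x : ℤ) = n - y := by omega
        have hK2 : (K : ℤ) = n' + j - y' - 1 := by omega
        have hn2 : (n : ℤ) = 2 * n' := by omega
        have hy2 : (y : ℤ) = 2 * y' + 1 := by omega
        rw [hx2, hK2, hy2, hn2]
        ring
  · rcases Nat.even_or_odd x with ⟨x', hx'⟩ | ⟨x', hx'⟩
    · -- n odd, x even
      by_cases hlt : 2 * x < n
      · obtain ⟨k, k1, k2, k3⟩ := exists_k n x (by omega) (by omega) hlt
        refine ⟨n + 2 * k, by omega, by omega, by omega, x', 2 * (x * k), ?_, by omega, by omega⟩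
        rw [hx']
        ring
      · obtain ⟨y, hy⟩ : ∃ y, n = x + y := ⟨n - x, by omega⟩
        obtain ⟨k, k1, k2, k3⟩ := exists_k n y (by omega) (by omega) (by omega)
        have hk : 1 ≤ k := by
          rcases Nat.eq_zero_or_pos k with h0 | h0
          · subst h0
            simp at k1
          · exact h0
        refine ⟨n + 2 * k, by omega, by omega, by omega, x' + k - 1, 2 * n - 2 * (y * k), ?_,
          by omega, by omega⟩
        have h5 : 2 * (y * k) ≤ 2 * n := by omega
        have h6 : 1 ≤ x' + k := by omega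
        zify [h5, h6]
        have hx2 : (x : ℤ) = n - y := by omega
        have hx3 : (x' : ℤ) * 2 = x := by omega
        have hx4 : 2 * (n : ℤ) * (x' + k - 1) = n * (x' * 2) + 2 * n * (k - 1) := by ring
        rw [hx4, hx3, hx2]
        ring
    · -- both odd
      refine ⟨n, by omega, by omega, by omega, x', n, ?_, by omega, by omega⟩
      rw [hx']
      ring

end existence

section application

theorem adj_iff (n x : ℕ) (u v : ZMod (2 * n)) :
    (circ n x).Adj u v ↔ u ≠ v ∧
      ((u - v = (x : ℕ) ∨ u - v = (1 : ℕ) ∨ u - v = (n : ℕ)) ∨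
       (v - u = (x : ℕ) ∨ v - u = (1 : ℕ) ∨ v - u = (n : ℕ))) := by
  unfold circ
  rw [SimpleGraph.circulantGraph, SimpleGraph.fromRel_adj]
  simp only [Set.mem_insert_iff, Set.mem_singleton_iff, Nat.cast_one]

theorem sub_eq_iff (N d : ℕ) [NeZero N] (hd : d < N) (u v : ZMod N) :
    v - u = (d : ℕ) ↔ (v.val = u.val + d ∨ v.val + N = u.val + d) := by
  have hu := ZMod.val_lt u
  have hv := ZMod.val_lt v
  have h1 : v - u = (d : ℕ) ↔ v.val = (u.val + d) % N := by
    rw [sub_eq_iff_eq_add]
    constructor
    · intro h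
      rw [h, ZMod.val_add, ZMod.val_natCast, Nat.mod_eq_of_lt hd, add_comm]
    · intro h
      apply ZMod.val_injective N
      rw [ZMod.val_add, ZMod.val_natCast, Nat.mod_eq_of_lt hd, add_comm, h]
  rw [h1]
  by_cases h2 : u.val + d < N
  · rw [Nat.mod_eq_of_lt h2]
    omega
  · rw [Nat.mod_eq_sub_mod (by omega), Nat.mod_eq_of_lt (by omega)]
    omega

theorem wr_main (n x : ℕ) (hx : 1 < x) (hxn : x + 2 ≤ n) (h2 : 2 * x ≠ n)
    (h62 : ¬ (n = 6 ∧ x = 2)) : WordRepresentable (circ n x) := by
  have : NeZero (2 * n) := ⟨by omega⟩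
  obtain ⟨Q, hQ, hQ1, hQ2, K, r, hK, hr1, hr2⟩ := exists_Q n x hx hxn h2 h62
  have step : ∀ (d s K : ℕ) (u v : ZMod (2 * n)), v - u = (d : ℕ) → d * Q = 2 * n * K + s →
      n < 2 * s → 2 * s < 3 * n →
      (2 * (u * (Q : ZMod (2 * n))).val + n < 2 * (v * (Q : ZMod (2 * n))).val ∧
        2 * (v * (Q : ZMod (2 * n))).val < 2 * (u * (Q : ZMod (2 * n))).val + 3 * n) ∨
      (2 * (v * (Q : ZMod (2 * n))).val + n < 2 * (u * (Q : ZMod (2 * n))).val ∧
        2 * (u * (Q : ZMod (2 * n))).val < 2 * (v * (Q : ZMod (2 * n))).val + 3 * n) := by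
    intro d s K u v h1 h2 h3 h4
    have h5 : v * (Q : ZMod (2 * n)) - u * (Q : ZMod (2 * n)) = (s : ℕ) := by
      rw [← sub_mul, h1, ← Nat.cast_mul, h2, Nat.cast_add, Nat.cast_mul]
      have : ((2 * n : ℕ) : ZMod (2 * n)) = 0 := ZMod.natCast_self (2 * n)
      rw [this, zero_mul, zero_add]
    rw [sub_eq_iff (2 * n) s (by omega)] at h5
    omega
  refine wr_of_circular _ (fun v => (v * (Q : ZMod (2 * n))).val) n ?_
  have hn : n * Q = 2 * n * (Q / 2) + n := by
    conv_lhs => rw [← Nat.div_add_mod Q 2, hQ]
    ring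
  intro u v huv
  obtain ⟨_, h1⟩ := (adj_iff n x u v).mp huv
  rcases h1 with (h1 | h1 | h1) | (h1 | h1 | h1)
  · exact (step x r K v u h1 hK hr1 hr2).symm
  · exact (step 1 Q 0 v u h1 (by ring) hQ1 hQ2).symm
  · exact (step n n (Q / 2) v u h1 hn (by omega) (by omega)).symm
  · exact step x r K u v h1 hK hr1 hr2
  · exact step 1 Q 0 u v h1 (by ring) hQ1 hQ2
  · exact step n n (Q / 2) u v h1 hn (by omega) (by omega)

theorem wr_last (n : ℕ) (hn : 4 ≤ n) : WordRepresentable (circ n (n - 1)) := by
  have : NeZero (2 * n) := ⟨by omega⟩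
  refine wr_of_twin_cycle _ n hn (fun v => v.val % n) (fun v => v.val / n) ?_ ?_ ?_ ?_
  · intro v
    exact Nat.mod_lt _ (by omega)
  · intro v
    exact Nat.div_lt_of_lt_mul (by have := ZMod.val_lt v; omega)
  · intro u v h1 h2
    apply ZMod.val_injective
    rw [← Nat.div_add_mod u.val n, ← Nat.div_add_mod v.val n]
    rw [h1, h2]
  · intro u v
    rw [adj_iff, sub_eq_iff _ _ (by omega), sub_eq_iff _ _ (by omega), sub_eq_iff _ _ (by omega),
      sub_eq_iff _ _ (by omega), sub_eq_iff _ _ (by omega), sub_eq_iff _ _ (by omega)]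
    have hu := ZMod.val_lt u
    have hv := ZMod.val_lt v
    have hne : u ≠ v ↔ u.val ≠ v.val := (ZMod.val_injective _).ne_iff.symm
    rw [hne]
    have a1 := Nat.div_add_mod u.val n
    have a2 := Nat.div_add_mod v.val n
    have b1 : u.val % n < n := Nat.mod_lt _ (by omega)
    have b2 : v.val % n < n := Nat.mod_lt _ (by omega)
    have c1 : u.val / n < 2 := Nat.div_lt_of_lt_mul (by omega)
    have c2 : v.val / n < 2 := Nat.div_lt_of_lt_mul (by omega)
    generalize u.val / n = e1 at *
    generalize v.val / n = e2 at *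
    generalize u.val % n = r1 at *
    generalize v.val % n = r2 at *
    generalize u.val = U at *
    generalize v.val = V at *
    interval_cases e1 <;> interval_cases e2 <;> omega

theorem wr_half (x : ℕ) (hx : 1 < x) : WordRepresentable (circ (2 * x) x) := by
  have : NeZero (2 * (2 * x)) := ⟨by omega⟩
  have dec : ∀ v : ZMod (2 * (2 * x)), v.val = x * (v.val / x) + v.val % x ∧ v.val % x < x ∧
      v.val / x < 4 := by
    intro v
    have := ZMod.val_lt v
    refine ⟨(Nat.div_add_mod _ _).symm, Nat.mod_lt _ (by omega), Nat.div_lt_of_lt_mul (by omega)⟩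
  -- one step
  have s1 : ∀ u v : ZMod (2 * (2 * x)), v - u = (1 : ℕ) →
      (v.val / x = u.val / x ∧ v.val % x = u.val % x + 1) ∨
      (u.val % x = x - 1 ∧ v.val % x = 0 ∧
        (v.val / x = u.val / x + 1 ∨ v.val / x + 4 = u.val / x + 1)) := by
    intro u v h
    rw [sub_eq_iff _ _ (by omega)] at h
    obtain ⟨a1, a2, a3⟩ := dec u
    obtain ⟨b1, b2, b3⟩ := dec v
    generalize u.val / x = e1 at *
    generalize v.val / x = e2 at *
    generalize u.val % x = r1 at *
    generalize v.val % x = r2 at *
    generalize u.val = U at *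
    generalize v.val = V at *
    interval_cases e1 <;> interval_cases e2 <;> omega
  have s2 : ∀ u v : ZMod (2 * (2 * x)), v - u = (x : ℕ) →
      v.val % x = u.val % x ∧ (v.val / x = u.val / x + 1 ∨ v.val / x + 4 = u.val / x + 1) := by
    intro u v h
    rw [sub_eq_iff _ _ (by omega)] at h
    obtain ⟨a1, a2, a3⟩ := dec u
    obtain ⟨b1, b2, b3⟩ := dec v
    generalize u.val / x = e1 at *
    generalize v.val / x = e2 at *
    generalize u.val % x = r1 at *
    generalize v.val % x = r2 at *
    generalize u.val = U at *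
    generalize v.val = V at *
    interval_cases e1 <;> interval_cases e2 <;> omega
  have s3 : ∀ u v : ZMod (2 * (2 * x)), v - u = ((2 * x : ℕ) : ZMod (2 * (2 * x))) →
      v.val % x = u.val % x ∧ (v.val / x = u.val / x + 2 ∨ v.val / x + 4 = u.val / x + 2) := by
    intro u v h
    rw [sub_eq_iff _ _ (by omega)] at h
    obtain ⟨a1, a2, a3⟩ := dec u
    obtain ⟨b1, b2, b3⟩ := dec v
    generalize u.val / x = e1 at *
    generalize v.val / x = e2 at *
    generalize u.val % x = r1 at *
    generalize v.val % x = r2 at *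
    generalize u.val = U at *
    generalize v.val = V at *
    interval_cases e1 <;> interval_cases e2 <;> omega
  set f : ZMod (2 * (2 * x)) → ℕ := fun v => (v.val / x + 2 * (v.val % x)) % 4 with hf
  have hstep : ∀ u v, (circ (2 * x) x).Adj u v → f v = (f u + 1) % 4 →
      v - u = (x : ℕ) ∨ (x % 2 = 1 ∧ u.val % x = x - 1 ∧ v.val % x = 0) ∨
        (x % 2 = 0 ∧ u.val % x = 0 ∧ v.val % x = x - 1) := by
    intro u v huv hc
    obtain ⟨hne, h⟩ := (adj_iff _ _ _ _).mp huv
    obtain ⟨_, a2, a3⟩ := dec u
    obtain ⟨_, b2, b3⟩ := dec v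
    simp only [hf] at hc
    rcases h with (h | h | h) | (h | h | h)
    · have := s2 v u h
      omega
    · have := s1 v u h
      omega
    · have := s3 v u h
      omega
    · exact Or.inl h
    · have := s1 u v h
      omega
    · have := s3 u v h
      omega
  refine wr_of_four _ f ?_ ?_ ?_
  · intro v
    exact Nat.mod_lt _ (by norm_num)
  · intro u v huv
    obtain ⟨hne, h⟩ := (adj_iff _ _ _ _).mp huv
    obtain ⟨_, a2, a3⟩ := dec u
    obtain ⟨_, b2, b3⟩ := dec v
    simp only [hf]
    rcases h with (h | h | h) | (h | h | h)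
    · have := s2 v u h
      omega
    · have := s1 v u h
      omega
    · have := s3 v u h
      omega
    · have := s2 u v h
      omega
    · have := s1 u v h
      omega
    · have := s3 u v h
      omega
  · intro a b c d fa fb fc fd ab bc cd ad
    have e1 := hstep a b ab (by rw [fa, fb])
    have e2 := hstep b c bc (by rw [fb, fc])
    have e3 := hstep c d cd (by rw [fc, fd])
    have e4 := hstep d a ad.symm (by rw [fd, fa])
    have k1 : b - a = (x : ℕ) → b.val % x = a.val % x := fun h => (s2 _ _ h).1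
    have k2 : c - b = (x : ℕ) → c.val % x = b.val % x := fun h => (s2 _ _ h).1
    have k3 : d - c = (x : ℕ) → d.val % x = c.val % x := fun h => (s2 _ _ h).1
    have k4 : a - d = (x : ℕ) → a.val % x = d.val % x := fun h => (s2 _ _ h).1
    have t1 : b - a = (x : ℕ) := by
      rcases e1 with e1 | e1 | e1
      · exact e1
      · exfalso
        rcases e2 with e2 | e2 | e2 <;> rcases e3 with e3 | e3 | e3 <;>
          rcases e4 with e4 | e4 | e4 <;> simp only [e2, e3, e4, forall_true_left] at k2 k3 k4 <;>
          omega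
      · exfalso
        rcases e2 with e2 | e2 | e2 <;> rcases e3 with e3 | e3 | e3 <;>
          rcases e4 with e4 | e4 | e4 <;> simp only [e2, e3, e4, forall_true_left] at k2 k3 k4 <;>
          omega
    have t2 : c - b = (x : ℕ) := by
      rcases e2 with e2 | e2 | e2
      · exact e2
      · exfalso
        have k1 := k1 t1
        rcases e3 with e3 | e3 | e3 <;>
          rcases e4 with e4 | e4 | e4 <;> simp only [e3, e4, forall_true_left] at k3 k4 <;>
          omega
      · exfalso
        have k1 := k1 t1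
        rcases e3 with e3 | e3 | e3 <;>
          rcases e4 with e4 | e4 | e4 <;> simp only [e3, e4, forall_true_left] at k3 k4 <;>
          omega
    have t3 : d - c = (x : ℕ) := by
      rcases e3 with e3 | e3 | e3
      · exact e3
      · exfalso
        have k1 := k1 t1
        have k2 := k2 t2
        rcases e4 with e4 | e4 | e4 <;> simp only [e4, forall_true_left] at k4 <;>
          omega
      · exfalso
        have k1 := k1 t1
        have k2 := k2 t2
        rcases e4 with e4 | e4 | e4 <;> simp only [e4, forall_true_left] at k4 <;>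
          omega
    have nac : a ≠ c := by
      rintro rfl
      omega
    have nbd : b ≠ d := by
      rintro rfl
      omega
    constructor
    · rw [adj_iff]
      refine ⟨nac, Or.inr (Or.inr (Or.inr ?_))⟩
      have : c - a = (c - b) + (b - a) := by ring
      rw [this, t1, t2]
      push_cast
      ring
    · rw [adj_iff]
      refine ⟨nbd, Or.inr (Or.inr (Or.inr ?_))⟩
      have : d - b = (d - c) + (c - b) := by ring
      rw [this, t2, t3]
      push_cast
      ring

theorem wr_six_two : WordRepresentable (circ 6 2) := by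
  refine wr_of_four _ (fun v => v.val % 4) ?_ ?_ ?_
  · intro v
    exact Nat.mod_lt _ (by norm_num)
  · simp only [adj_iff]
    decide +kernel
  · have hs : ∀ u v, (circ 6 2).Adj u v → v.val % 4 = (u.val % 4 + 1) % 4 → v = u + 1 := by
      simp only [adj_iff]
      decide +kernel
    have ht : ∀ u, ¬ (circ 6 2).Adj u (u + 1 + 1 + 1) := by
      simp only [adj_iff]
      decide +kernel
    intro a b c d fa fb fc fd ab bc cd ad
    have e1 := hs a b ab (by omega)
    have e2 := hs b c bc (by omega)
    have e3 := hs c d cd (by omega)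
    subst e1
    subst e2
    subst e3
    exact absurd ad (ht a)

theorem wr_three_two : WordRepresentable (circ 3 2) := by
  refine wordRepresentable_of_orientation _ (fun u v => u.val < v.val) (fun v => v.val)
    (fun u v h => h) ?_ ?_
  · simp only [adj_iff]
    decide +kernel
  · intro u v w h1 h2 _
    have hT : ∀ u v : ZMod (2 * 3), TransGen (fun u v => u.val < v.val) u v → u.val < v.val := by
      intro u v huv
      induction huv with
      | single h1 => exact h1
      | tail _ h1 ih => exact lt_trans ih h1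
    exact ⟨hT u v h1, hT v w h2⟩

end application

/-- For all integers `1 < x < n` the circulant graph `C_{2n}(x,1,n)` is word-representable. -/
theorem result : ∀ n x : ℕ, 3 ≤ n → 1 < x → x < n → WordRepresentable (circ n x) := by
  intro n x hn hx hxn
  by_cases h1 : x + 1 = n
  · have h2 : x = n - 1 := by omega
    rw [h2]
    by_cases h3 : n = 3
    · subst h3
      exact wr_three_two
    · exact wr_last n (by omega)
  · by_cases h2 : 2 * x = n
    · subst h2
      exact wr_half x hx
    · by_cases h3 : n = 6 ∧ x = 2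
      · obtain ⟨rfl, rfl⟩ := h3
        exact wr_six_two
      · exact wr_main n x hx (by omega) h2 h3

end Pool.Agent.Results.MP_bde658_co.AllRepresentable
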